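import Pool.Agent.Helper92.LV.Stmts
import Pool.Agent.Helper42.LK.KLS

open Filter Topology NumberField

namespace Pool.Agent.Helper92.LV

open Pool.Agent.Helper42.LS Pool.Agent.Helper42.LK

lemma kls2_max_mul {a b : ℝ} (_ha : 0 ≤ a) (hb : 0 ≤ b) :
    Real.log (max (a * b) 1) ≤ Real.log (max a 1) + Real.log (max b 1) := by
  have h4 : max (a * b) 1 ≤ max a 1 * max b 1 := by
    apply max_le
    · exact mul_le_mul (le_max_left _ _) (le_max_left _ _) hb (le_max_of_le_right zero_le_one)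
    · exact one_le_mul_of_one_le_of_one_le (le_max_right _ _) (le_max_right _ _)
  have h5 := Real.log_le_log (lt_of_lt_of_le one_pos (le_max_right _ _)) h4
  rwa [Real.log_mul (by positivity) (by positivity)] at h5

/-- rescaling of a potential, two sided -/
lemma kls2_scale {F : Type} [Field F] [CharZero F] (v : DV F) {A B u : F} (hu : u ≠ 0)
    {x y : ℕ → F} (hg : GSeq (0 : F) A B x y) {U : ℕ → ℝ} {c : ℝ}
    (h1 : ∀ k : ℕ, 1 ≤ k → |4 * U k - U (2 * k) -
      Real.log (v.nr (4 * cu (u ^ 4 * A) (u ^ 6 * B) (u ^ 2 * x k)))| ≤ c)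
    (h2 : ∃ C : ℝ, ∀ k : ℕ, 1 ≤ k → |U k - Real.log (max (v.nr (u ^ 2 * x k)) 1)| ≤ C) :
    (∀ k : ℕ, 1 ≤ k → |4 * (U k - 2 * Real.log (v.nr u)) - (U (2 * k) - 2 * Real.log (v.nr u)) -
      Real.log (v.nr (4 * cu A B (x k)))| ≤ c) ∧
    (∃ C : ℝ, ∀ k : ℕ, 1 ≤ k → |U k - 2 * Real.log (v.nr u) -
      Real.log (max (v.nr (x k)) 1)| ≤ C) := by
  constructor
  · intro k hk
    have h3 := h1 k hk
    have h4 : 4 * cu (u ^ 4 * A) (u ^ 6 * B) (u ^ 2 * x k) = u ^ 6 * (4 * cu A B (x k)) := by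
      unfold cu; ring
    have h5 : (4 * cu A B (x k)) ≠ 0 := mul_ne_zero (by norm_num) (klb_cu hg k hk)
    rw [h4, v.nr_mul, v.nr_pow, Real.log_mul (pow_ne_zero _ (v.nr_ne_zero hu)) (v.nr_ne_zero h5),
      Real.log_pow] at h3
    push_cast at h3
    have e : 4 * (U k - 2 * Real.log (v.nr u)) - (U (2 * k) - 2 * Real.log (v.nr u)) -
      Real.log (v.nr (4 * cu A B (x k))) = 4 * U k - U (2 * k) -
      (6 * Real.log (v.nr u) + Real.log (v.nr (4 * cu A B (x k)))) := by ring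
    rw [e]; exact h3
  · obtain ⟨C, hC⟩ := h2
    refine ⟨C + 2 * |Real.log (v.nr u)| + Real.log (max (v.nr (u ^ 2)) 1) +
      Real.log (max (v.nr ((u ^ 2)⁻¹)) 1), fun k hk => ?_⟩
    have h3 := abs_le.1 (hC k hk)
    have h4 := kls2_max_mul (v.nr_nonneg (u ^ 2)) (v.nr_nonneg (x k))
    rw [← v.nr_mul] at h4
    have h5 := kls2_max_mul (v.nr_nonneg ((u ^ 2)⁻¹)) (v.nr_nonneg (u ^ 2 * x k))
    rw [← v.nr_mul, inv_mul_cancel_left₀ (pow_ne_zero _ hu)] at h5
    have h6 := le_abs_self (Real.log (v.nr u))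
    have h7 := neg_abs_le (Real.log (v.nr u))
    have h8 : 0 ≤ Real.log (max (v.nr (u ^ 2)) 1) := Real.log_nonneg (le_max_right _ _)
    have h9 : 0 ≤ Real.log (max (v.nr ((u ^ 2)⁻¹)) 1) := Real.log_nonneg (le_max_right _ _)
    rw [abs_le]
    constructor <;> linarith [h3.1, h3.2]

lemma kls2_qc {g : ℕ → ℝ} (h : QC 0 g) : QC 0 (fun k => g (12 * k)) where
  nonneg k hk := h.nonneg (12 * k) (by omega)
  add k l hk hl := by
    have := h.add (12 * k) (12 * l) (by omega) (by omega)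
    simpa [mul_add] using this
  sub k l hl hlk := by
    have := h.sub (12 * k) (12 * l) (by omega) (by omega)
    have e : 12 * (k - l) = 12 * k - 12 * l := by omega
    show min (g (12 * k)) (g (12 * l)) - 0 ≤ g (12 * (k - l))
    rw [e]; exact this

lemma kls2_R {X R : ℝ} (hR : 0 < R) (hR1 : R ≤ 1) :
    |Real.log (max X R) - Real.log (max X 1)| ≤ -Real.log R := by
  have h1 : 0 < max X R := lt_of_lt_of_le hR (le_max_right _ _)
  have h2 : 0 < max X 1 := lt_of_lt_of_le one_pos (le_max_right _ _)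
  have h3 : Real.log (max X R) ≤ Real.log (max X 1) :=
    Real.log_le_log h1 (max_le_max le_rfl hR1)
  have h4 : Real.log (max X 1) + Real.log R ≤ Real.log (max X R) := by
    rw [← Real.log_mul h2.ne' hR.ne']
    apply Real.log_le_log (mul_pos h2 hR)
    rcases le_total X 1 with h | h
    · rw [max_eq_right h, one_mul]; exact le_max_right _ _
    · rw [max_eq_left h]
      exact (mul_le_of_le_one_right (by linarith) hR1).trans (le_max_left _ _)
  have h5 : Real.log R ≤ 0 := Real.log_nonpos hR.le hR1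
  rw [abs_le]
  constructor <;> linarith

lemma kls2_B2 (s : ℝ) : |B2 s - 1 / 6| ≤ 1 := by
  unfold B2
  have h0 := Int.fract_nonneg s
  have h1 := (Int.fract_lt_one s).le
  rw [abs_le]
  constructor <;> nlinarith

lemma kls2_shift {F : Type} [Field F] (v : DV F) {x x₀ ρ : F} {M : ℝ} (hM : 1 ≤ M)
    (hx₀ : v.nr x₀ ≤ M) (hρ1 : 1 ≤ v.nr ρ) (hρM : v.nr ρ ≤ M) :
    |Real.log (max (v.nr ((x - x₀) * ρ)) 1) - Real.log (max (v.nr x) 1)| ≤
      2 * Real.log M := by
  have hM0 : 0 < M := by linarith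
  have hlM : 0 ≤ Real.log M := Real.log_nonneg hM
  have p1 : 0 < max (v.nr ((x - x₀) * ρ)) 1 := lt_of_lt_of_le one_pos (le_max_right _ _)
  have p2 : 0 < max (v.nr x) 1 := lt_of_lt_of_le one_pos (le_max_right _ _)
  have h1 : max (v.nr ((x - x₀) * ρ)) 1 ≤ max (v.nr x) 1 * M * M := by
    apply max_le
    · rw [v.nr_mul]
      apply mul_le_mul _ hρM (v.nr_nonneg _) (by positivity)
      refine (v.nr_sub_le _ _).trans (max_le ?_ ?_)
      · exact (le_max_left _ _).trans (le_mul_of_one_le_right p2.le hM)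
      · refine hx₀.trans ?_
        exact le_mul_of_one_le_left hM0.le (le_max_right _ _)
    · have a1 : 1 ≤ max (v.nr x) 1 := le_max_right _ _
      have a2 : 1 ≤ max (v.nr x) 1 * M := one_le_mul_of_one_le_of_one_le a1 hM
      exact one_le_mul_of_one_le_of_one_le a2 hM
  have h2 : max (v.nr x) 1 ≤ max (v.nr ((x - x₀) * ρ)) 1 * M := by
    apply max_le
    · have e : x = (x - x₀) + x₀ := by ring
      have h3 : v.nr x ≤ max (v.nr (x - x₀)) (v.nr x₀) := by
        conv_lhs => rw [e]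
        exact v.nr_add_le _ _
      refine h3.trans (max_le ?_ ?_)
      · have h4 : v.nr (x - x₀) ≤ v.nr ((x - x₀) * ρ) := by
          rw [v.nr_mul]; exact le_mul_of_one_le_right (v.nr_nonneg _) hρ1
        exact (h4.trans (le_max_left _ _)).trans (le_mul_of_one_le_right p1.le hM)
      · exact hx₀.trans (le_mul_of_one_le_left hM0.le (le_max_right _ _))
    · exact one_le_mul_of_one_le_of_one_le (le_max_right _ _) hM
  have l1 := Real.log_le_log p1 h1
  rw [Real.log_mul (by positivity) hM0.ne', Real.log_mul p2.ne' hM0.ne'] at l1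
  have l2 := Real.log_le_log p2 h2
  rw [Real.log_mul p1.ne' hM0.ne'] at l2
  rw [abs_le]
  constructor <;> linarith

theorem st_KLS2 (hQC : ST_QCI) (hPM : ST_KPM2) (hPS : ST_KPS2) (hMN : ST_KMN) (hSC : ST_KSC) :
    ST_KLS2 := by
  intro F _ _ v
  obtain ⟨C₁, hC₁, hPS⟩ := hPS F v
  have hlq := v.log_q_pos
  have h20 : 0 ≤ v.ord 2 := v.ord_ofNat 2
  have h30 : 0 ≤ v.ord 3 := v.ord_ofNat 3
  have h6912 : 0 ≤ v.ord 6912 := v.ord_ofNat 6912
  have h160 : 0 ≤ v.ord 16 := v.ord_ofNat 16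
  set L : ℤ := v.ord 6912 + 3 * v.ord 3 + 12 + v.ord 16 + v.ord 2 with hL
  have hL0 : 0 ≤ L := by omega
  set C₂ : ℝ := (L : ℝ) * Real.log v.q with hC₂
  have hC₂0 : 0 ≤ C₂ := mul_nonneg (by exact_mod_cast hL0) hlq.le
  refine ⟨C₁ + 3 * C₂, by positivity, ?_⟩
  intro A₀ B₀ hD₀ x₀ y₀ hg₀
  obtain ⟨u, hu0, huA, huB, hmin, hdl, -⟩ := hMN F v A₀ B₀ hD₀
  have hg := hSC F A₀ B₀ u x₀ y₀ hu0 hg₀
  have hlogD := klb_log_dsc v hu0 hD₀
  have hD : dsc (u ^ 4 * A₀) (u ^ 6 * B₀) ≠ 0 := by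
    rw [klb_dsc]; exact mul_ne_zero (pow_ne_zero _ hu0) hD₀
  -- a potential for the minimal equation suffices
  suffices hkey : ∃ (w t : ℝ) (n : ℕ) (U f : ℕ → ℝ), 0 ≤ w ∧
      |w - dl v.nr A₀ B₀| ≤ C₁ + 3 * C₂ ∧ 1 ≤ n ∧
      (∃ a : ℤ, (n : ℝ) * t = a) ∧ (w ≠ 0 → n * Real.log v.q ≤ w) ∧
      (∀ k : ℕ, 1 ≤ k → |4 * U k - U (2 * k) -
        Real.log (v.nr (4 * cu (u ^ 4 * A₀) (u ^ 6 * B₀) (u ^ 2 * x₀ k)))| ≤ C₁ + 3 * C₂) ∧
      (∃ C : ℝ, ∀ k : ℕ, 1 ≤ k → |U k - Real.log (max (v.nr (u ^ 2 * x₀ k)) 1)| ≤ C) ∧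
      QC 0 f ∧
      (∀ k : ℕ, 1 ≤ k → |U (12 * k) - (w * B2 (k * t) +
        1 / 6 * Real.log (v.nr (dsc (u ^ 4 * A₀) (u ^ 6 * B₀))) + f k)| ≤ C₁ + 3 * C₂) by
    obtain ⟨w, t, n, U, f, h5, h6, h7, h8, h9, h10, h11, hf, h12⟩ := hkey
    obtain ⟨h13, h14⟩ := kls2_scale v hu0 hg₀ h10 h11
    refine ⟨w, t, n, fun k => U k - 2 * Real.log (v.nr u), f, h5, h6, h7, h8, h9, h13, h14,
      hf, ?_⟩
    intro k hk
    have := h12 k hk
    rw [hlogD] at this
    have e : U (12 * k) - 2 * Real.log (v.nr u) - (w * B2 (k * t) +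
        1 / 6 * Real.log (v.nr (dsc A₀ B₀)) + f k) = U (12 * k) - (w * B2 (k * t) +
        1 / 6 * (12 * Real.log (v.nr u) + Real.log (v.nr (dsc A₀ B₀))) + f k) := by ring
    simp only
    rw [e]; exact this
  set A := u ^ 4 * A₀ with hA
  set B := u ^ 6 * B₀ with hB
  have hAint : v.nr A ≤ 1 := huA
  have hBint : v.nr B ≤ 1 := huB
  have hqc := kls2_qc (hQC F v A B hAint hBint _ _ hg)
  have hDint : v.nr (dsc A B) ≤ 1 := by
    unfold dsc
    refine (v.nr_add_le _ _).trans (max_le ?_ ?_)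
    · rw [v.nr_mul, v.nr_pow]
      exact mul_le_one₀ (v.nr_ofNat 4) (pow_nonneg (v.nr_nonneg _) _)
        (pow_le_one₀ (v.nr_nonneg _) hAint)
    · rw [v.nr_mul, v.nr_pow]
      exact mul_le_one₀ (v.nr_ofNat 27) (pow_nonneg (v.nr_nonneg _) _)
        (pow_le_one₀ (v.nr_nonneg _) hBint)
  have hordD : 0 ≤ v.ord (dsc A B) := (v.nr_le_one_iff hD).1 hDint
  have hlogD2 : Real.log (v.nr (dsc A B)) = -(v.ord (dsc A B) : ℝ) * Real.log v.q := v.log_nr hD
  have hdlD : dl v.nr A₀ B₀ = (v.ord (dsc A B) : ℝ) * Real.log v.q := by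
    rw [hdl, hlogD2]; ring
  by_cases hj : v.nr (6912 * A ^ 3) ≤ v.nr (dsc A B)
  · -- potentially good reduction
    obtain ⟨R, hR0, hRl, hU1⟩ := hPS A B hD hj _ _ hg
    have hsmall : v.ord (dsc A B) ≤ v.ord 6912 + 3 * v.ord 3 + 12 := by
      by_contra hcon
      push Not at hcon
      apply kls_min v hmin
      · by_cases hA0 : A = 0
        · exact Or.inl hA0
        · right
          have hne : 6912 * A ^ 3 ≠ 0 := mul_ne_zero (by norm_num) (pow_ne_zero _ hA0)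
          rw [v.nr_of_ne hne, v.nr_of_ne hD, zpow_le_zpow_iff_right₀ v.one_lt_q,
            v.ord_mul _ _ (by norm_num) (pow_ne_zero _ hA0), v.ord_pow] at hj
          push_cast at hj
          omega
      · right; omega
    have hDb : (v.ord (dsc A B) : ℝ) * Real.log v.q ≤ C₂ := by
      apply mul_le_mul_of_nonneg_right _ hlq.le
      exact_mod_cast (by omega : v.ord (dsc A B) ≤ L)
    have hDn : 0 ≤ (v.ord (dsc A B) : ℝ) * Real.log v.q :=
      mul_nonneg (by exact_mod_cast hordD) hlq.le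
    have hRlog : Real.log R = -(1 / 6 * ((v.ord (dsc A B) : ℝ) * Real.log v.q)) := by
      rw [hRl, hlogD2]; ring
    have hR1 : R ≤ 1 := by
      by_contra hcon
      push Not at hcon
      have := Real.log_pos hcon
      linarith
    refine ⟨0, 0, 1, fun k => Real.log (max (v.nr (u ^ 2 * x₀ k)) R), _, le_rfl, ?_, le_rfl,
      ⟨0, by simp⟩, fun h => absurd rfl h, ?_, ⟨-Real.log R, ?_⟩, hqc, ?_⟩
    · rw [zero_sub, abs_neg, hdlD, abs_of_nonneg hDn]
      linarith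
    · intro k hk
      have := hU1 k hk
      linarith
    · intro k hk
      exact kls2_R hR0 hR1
    · intro k hk
      have h := abs_le.1 (kls2_R (X := v.nr (u ^ 2 * x₀ (12 * k))) hR0 hR1)
      rw [← hRl, abs_le]
      simp only
      constructor <;> linarith [h.1, h.2]
  · push Not at hj
    have hA0 : A ≠ 0 := by
      intro h
      rw [h] at hj
      simp only [ne_eq, OfNat.ofNat_ne_zero, not_false_eq_true, zero_pow, mul_zero,
        v.nr_zero] at hj
      exact absurd (v.nr_nonneg _) (not_le.2 hj)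
    have hne : 6912 * A ^ 3 ≠ 0 := mul_ne_zero (by norm_num) (pow_ne_zero _ hA0)
    have hord : v.ord (6912 * A ^ 3) < v.ord (dsc A B) := by
      rw [v.nr_of_ne hne, v.nr_of_ne hD, zpow_lt_zpow_iff_right₀ v.one_lt_q] at hj
      omega
    have hord2 : v.ord (6912 * A ^ 3) = v.ord 6912 + 3 * v.ord A := by
      rw [v.ord_mul _ _ (by norm_num) (pow_ne_zero _ hA0), v.ord_pow]; rfl
    have hordA : 0 ≤ v.ord A := (v.nr_le_one_iff hA0).1 hAint
    obtain ⟨N, hN⟩ : ∃ N : ℕ, v.ord (6912 * A ^ 3 / dsc A B) = -(N : ℤ) :=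
      ⟨(-(v.ord (6912 * A ^ 3 / dsc A B))).toNat, by
        rw [v.ord_div hne hD, Int.toNat_of_nonneg (by omega)]; ring⟩
    have hN' : (N : ℤ) = v.ord (dsc A B) - v.ord 6912 - 3 * v.ord A := by
      rw [v.ord_div hne hD] at hN; omega
    have hN1 : 1 ≤ N := by omega
    have hAlt : v.ord A < 4 + v.ord 3 := by
      by_contra hcon
      push Not at hcon
      exact kls_min v hmin (Or.inr hcon) (Or.inr (by omega))
    obtain ⟨r, a, ρ, U, hρ0, hρ, hr, hUk, hU1, -⟩ := hPM F v N hN1 A B hD hN _ _ hg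
    have hNR : (0 : ℝ) < N := by exact_mod_cast hN1
    rw [v.ord_mul _ _ (by norm_num) hD] at hr
    have hr0 : 0 ≤ r := by omega
    have hrL : r ≤ L := by omega
    -- the shift
    set M : ℝ := v.q ^ L with hMdef
    have hM1 : 1 ≤ M := one_le_zpow₀ v.one_lt_q.le hL0
    have hlogM : Real.log M = C₂ := by rw [hMdef, Real.log_zpow]
    have hρ1 : 1 ≤ v.nr ρ := by
      rw [v.nr_of_ne hρ0, hρ, neg_neg]; exact one_le_zpow₀ v.one_lt_q.le hr0
    have hρM : v.nr ρ ≤ M := by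
      rw [v.nr_of_ne hρ0, hρ, neg_neg]; exact zpow_le_zpow_right₀ v.one_lt_q.le hrL
    have hx₀ : v.nr (-3 * B / (2 * A)) ≤ M := by
      by_cases hB0 : B = 0
      · rw [hB0, mul_zero, zero_div, v.nr_zero]; linarith
      · have h3n : (-3 : F) ≠ 0 := neg_ne_zero.2 (by norm_num)
        have h2A : 2 * A ≠ 0 := mul_ne_zero (by norm_num) hA0
        have hne2 : -3 * B / (2 * A) ≠ 0 := div_ne_zero (mul_ne_zero h3n hB0) h2A
        have hordB : 0 ≤ v.ord B := (v.nr_le_one_iff hB0).1 hBint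
        rw [v.nr_of_ne hne2, v.ord_div (mul_ne_zero h3n hB0) h2A, v.ord_mul _ _ h3n hB0,
          v.ord_mul _ _ (by norm_num) hA0, v.ord_neg]
        exact zpow_le_zpow_right₀ v.one_lt_q.le (by omega)
    have hshift := fun x : F => kls2_shift v (x := x) hM1 hx₀ hρ1 hρM
    rw [hlogM] at hshift
    refine ⟨N * Real.log v.q, 6 * a / N, N, U, _, by positivity, ?_, hN1,
      ⟨6 * a, by push_cast; field_simp⟩, fun _ => le_rfl, ?_,
      ⟨2 * C₂ + N * Real.log v.q + |(r : ℝ) * Real.log v.q|, ?_⟩, hqc, ?_⟩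
    · rw [hdlD, ← sub_mul, abs_mul, abs_of_pos hlq]
      have h1 : |((N : ℝ) - (v.ord (dsc A B) : ℝ))| ≤ (L : ℝ) := by
        have h2 : |((N : ℤ) - v.ord (dsc A B))| ≤ L := by
          rw [abs_le]; omega
        exact_mod_cast h2
      have h3 := mul_le_mul_of_nonneg_right h1 hlq.le
      linarith
    · intro k hk
      rw [hU1 k hk, add_sub_cancel_left, sub_self, abs_zero]
      positivity
    · intro k hk
      have h1 := abs_le.1 (hshift (u ^ 2 * x₀ k))
      have h2 := abs_le.1 (kls2_B2 (k * (a / (2 * N))))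
      have h3 := le_abs_self ((r : ℝ) * Real.log v.q)
      have h4 := neg_abs_le ((r : ℝ) * Real.log v.q)
      have h5 : 0 ≤ (N : ℝ) * Real.log v.q := by positivity
      have h6 : (N : ℝ) * Real.log v.q * (B2 (k * (a / (2 * N))) - 1 / 6) ≤
          N * Real.log v.q := by nlinarith [h2.2]
      have h7 : -((N : ℝ) * Real.log v.q) ≤
          (N : ℝ) * Real.log v.q * (B2 (k * (a / (2 * N))) - 1 / 6) := by nlinarith [h2.1]
      rw [hUk k hk, abs_le]
      constructor <;> linarith [h1.1, h1.2]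
    · intro k hk
      have h1 := abs_le.1 (hshift (u ^ 2 * x₀ (12 * k)))
      have e1 : (((12 * k : ℕ) : ℝ) * ((a : ℝ) / (2 * N))) = k * (6 * a / N) := by
        push_cast; field_simp; ring
      have hrR : (v.ord 16 : ℝ) + (v.ord (dsc A B) : ℝ) = N + 6 * r := by exact_mod_cast hr
      have h3 : (v.ord (dsc A B) : ℝ) = N + 6 * r - v.ord 16 := by linarith
      have h4 : (0 : ℝ) ≤ (v.ord 16 : ℝ) * Real.log v.q :=
        mul_nonneg (by exact_mod_cast h160) hlq.le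
      have h5 : (v.ord 16 : ℝ) * Real.log v.q ≤ C₂ := by
        apply mul_le_mul_of_nonneg_right _ hlq.le
        exact_mod_cast (by omega : v.ord 16 ≤ L)
      rw [hUk (12 * k) (by omega), e1, hlogD2, h3, abs_le]
      constructor <;> linarith [h1.1, h1.2]

end Pool.Agent.Helper92.LV
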